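import Mathlib

namespace Pool.Agent.Results.MP_f6aace_co.Example

open Finset

/-- `(L, H)` is an `m`-fold cover of `G` -/
def IsCover {V W : Type} (G : SimpleGraph V) (m : ℕ) (L : V → Finset W) (H : SimpleGraph W) :
    Prop :=
  (∀ w, ∃! v, w ∈ L v) ∧ (∀ v, (L v).card = m) ∧ (∀ v, H.IsClique (L v : Set W)) ∧
  (∀ u v, G.Adj u v → ∀ x ∈ L u, ∀ y ∈ L v, ∀ y' ∈ L v, H.Adj x y → H.Adj x y' → y = y') ∧
  (∀ u v, u ≠ v → ¬ G.Adj u v → ∀ x ∈ L u, ∀ y ∈ L v, ¬ H.Adj x y)

/-- DP-chromatic number -/
noncomputable def chiDP {V : Type} [Fintype V] (G : SimpleGraph V) : ℕ :=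
  sInf {m | ∀ (W : Type) (L : V → Finset W) (H : SimpleGraph W), IsCover G m L H →
    ∃ s, H.IsNIndepSet (Fintype.card V) s}

/-- partial DP `t`-chromatic number -/
noncomputable def alphaDP {V : Type} (G : SimpleGraph V) (t : ℕ) : ℕ :=
  sInf {a | ∃ (W : Type) (L : V → Finset W) (H : SimpleGraph W), IsCover G t L H ∧
    H.indepNum = a}

def pos : Fin 13 → ℕ := ![4222, 61, 987, 4215, 4207, 27, 925, 2884, 708, 452, 2048, 5248, 2073]
def neg : Fin 13 → ℕ := ![0, 3200, 0, 0, 0, 3456, 0, 34, 1056, 1024, 802, 34, 0]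

def G : SimpleGraph (Fin 13) where
  Adj u v := ((pos u).testBit v || (neg u).testBit v) = true
  symm := ⟨by decide +kernel⟩
  loopless := ⟨by decide +kernel⟩

instance : DecidableRel G.Adj := fun u v => by unfold G; infer_instance

def hb (x y : Fin 13 × Bool) : Bool :=
  if x.2 = y.2 then (pos x.1).testBit y.1 else (x.1 == y.1 || (neg x.1).testBit y.1)

def H2 : SimpleGraph (Fin 13 × Bool) where
  Adj x y := hb x y = true
  symm := ⟨by decide +kernel⟩
  loopless := ⟨by decide +kernel⟩

instance : DecidableRel H2.Adj := fun u v => by unfold H2; infer_instance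

def noInd {α : Type} (r : α → α → Bool) : ℕ → ℕ → List α → Bool
  | _, 0, _ => false
  | _, _ + 1, [] => true
  | 0, _ + 1, _ :: _ => false
  | f + 1, k + 1, x :: l => noInd r f k (l.filter fun y => !r x y) && noInd r f (k + 1) l

theorem noInd_sound {α : Type} [DecidableEq α] (r : α → α → Bool) : ∀ (f k : ℕ) (l : List α),
    noInd r f k l = true → ∀ s : Finset α, (∀ x ∈ s, x ∈ l) →
      (∀ x ∈ s, ∀ y ∈ s, x ≠ y → r x y = false) → s.card < k := by
  intro f
  induction f with
  | zero =>
    intro k l h s h1 _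
    rcases k with _ | k
    · simp [noInd] at h
    rcases l with _ | ⟨x, l⟩
    · have : s = ∅ := eq_empty_of_forall_notMem fun x hx => by simpa using h1 x hx
      simp [this]
    · simp [noInd] at h
  | succ f ih =>
    intro k l h s h1 h2
    rcases k with _ | k
    · simp [noInd] at h
    rcases l with _ | ⟨x, l⟩
    · have : s = ∅ := eq_empty_of_forall_notMem fun x hx => by simpa using h1 x hx
      simp [this]
    simp only [noInd, Bool.and_eq_true] at h
    by_cases hx : x ∈ s
    · have := ih _ _ h.1 (s.erase x) (fun y hy => by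
        have h3 := mem_erase.1 hy
        have h4 := h2 x hx y h3.2 h3.1.symm
        have h5 := h1 y h3.2
        simp only [List.mem_cons, h3.1, false_or] at h5
        simp [h4, h5]) (fun a ha b hb => h2 a (mem_of_mem_erase ha) b (mem_of_mem_erase hb))
      rw [card_erase_of_mem hx] at this
      omega
    · refine ih _ _ h.2 s (fun y hy => ?_) h2
      have h5 := h1 y hy
      rcases List.mem_cons.1 h5 with h6 | h6
      · exact absurd (h6 ▸ hy) hx
      · exact h6

def allW : List (Fin 13 × Bool) := (List.finRange 13).flatMap fun v => [(v, false), (v, true)]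

theorem alpha_le : alphaDP G 2 ≤ 5 := by
  refine le_trans (Nat.sInf_le ⟨Fin 13 × Bool, fun v => {(v, false), (v, true)}, H2,
    ⟨?_, by decide +kernel, ?_, by decide +kernel, by decide +kernel⟩, rfl⟩) ?_
  · rintro ⟨v, b⟩
    refine ⟨v, by cases b <;> simp, ?_⟩
    intro u hu
    simp only [mem_insert, mem_singleton, Prod.mk.injEq] at hu
    rcases hu with h | h <;> exact h.1.symm
  · intro v
    simp only [coe_insert, coe_singleton]
    rw [SimpleGraph.isClique_pair]
    intro _
    revert v
    decide +kernel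
  · refine csSup_le' ?_
    rintro n ⟨s, h1, rfl⟩
    have := noInd_sound hb 26 6 allW (by decide +kernel) s
      (fun x _ => (by decide +kernel : ∀ x, x ∈ allW) x)
      (fun x hx y hy h => by simpa [H2] using h1 hx hy h)
    omega

theorem five (W : Type) (L : Fin 13 → Finset W) (H : SimpleGraph W) (h : IsCover G 5 L H) :
    ∃ s, H.IsNIndepSet (Fintype.card (Fin 13)) s := by
  classical
  obtain ⟨h1, h2, -, h4, h5⟩ := h
  have hne : ∀ v, (L v).Nonempty := fun v => card_pos.1 (by rw [h2]; norm_num)
  have key : ∀ k ≤ 13, ∃ f : Fin 13 → W, (∀ v, f v ∈ L v) ∧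
      ∀ u v : Fin 13, u.val < v.val → v.val < k → ¬ H.Adj (f u) (f v) := by
    intro k
    induction k with
    | zero => exact fun _ => ⟨fun v => (hne v).choose, fun v => (hne v).choose_spec, by omega⟩
    | succ k ih =>
      intro hk
      obtain ⟨f, f1, f2⟩ := ih (by omega)
      set v : Fin 13 := ⟨k, by omega⟩ with hv
      have hd : ∀ v : Fin 13, #{u : Fin 13 | u.val < v.val ∧ G.Adj u v} ≤ 4 := by decide +kernel
      have hc : #(({u : Fin 13 | u.val < v.val ∧ G.Adj u v} : Finset _).biUnion
          fun u => (L v).filter (H.Adj (f u))) < #(L v) := by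
        refine lt_of_le_of_lt (card_biUnion_le_card_mul _ _ 1 fun u hu => ?_) ?_
        · exact card_le_one.2 fun a ha b hb => h4 u v (mem_filter.1 hu).2.2 _ (f1 u) a
            (mem_filter.1 ha).1 b (mem_filter.1 hb).1 (mem_filter.1 ha).2 (mem_filter.1 hb).2
        · have := hd v
          rw [h2]; omega
      obtain ⟨y, hy, hy'⟩ := exists_mem_notMem_of_card_lt_card hc
      refine ⟨Function.update f v y, fun u => ?_, fun a b hab hb => ?_⟩
      · by_cases hu : u = v
        · rw [hu, Function.update_self]; exact hy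
        · rw [Function.update_of_ne hu]; exact f1 u
      · have ha : a ≠ v := fun h => by rw [h, hv] at hab; simp only at hab; omega
        rw [Function.update_of_ne ha]
        by_cases hb' : b = v
        · rw [hb', Function.update_self]
          intro hadj
          by_cases hG : G.Adj a v
          · exact hy' (mem_biUnion.2 ⟨a, mem_filter.2 ⟨mem_univ _, hb' ▸ hab, hG⟩,
              mem_filter.2 ⟨hy, hadj⟩⟩)
          · exact h5 a v ha hG _ (f1 a) _ hy hadj
        · rw [Function.update_of_ne hb']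
          refine f2 a b hab ?_
          have : b.val ≠ k := fun h => hb' (Fin.ext h)
          omega
  obtain ⟨f, f1, f2⟩ := key 13 le_rfl
  have hinj : Function.Injective f := fun a b hab =>
    (h1 (f a)).unique (f1 a) (hab ▸ f1 b)
  refine ⟨univ.image f, ?_, by rw [card_image_of_injective _ hinj, card_univ]⟩
  intro x hx y hy hxy
  simp only [coe_image, coe_univ, Set.image_univ, Set.mem_range] at hx hy
  obtain ⟨a, rfl⟩ := hx
  obtain ⟨b, rfl⟩ := hy
  rcases lt_trichotomy a.val b.val with h | h | h
  · exact f2 a b h b.2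
  · exact absurd (congrArg f (Fin.ext h)) hxy
  · exact fun h' => f2 b a h a.2 h'.symm

def can (m : ℕ) : SimpleGraph (Fin 13 × Fin m) where
  Adj x y := (x.1 = y.1 ∧ x.2 ≠ y.2) ∨ (G.Adj x.1 y.1 ∧ x.2 = y.2)
  symm := ⟨fun _ _ h => h.imp (fun h => ⟨h.1.symm, h.2.symm⟩) (fun h => ⟨h.1.symm, h.2.symm⟩)⟩
  loopless := ⟨fun x h => by simp at h⟩

theorem low (m : ℕ) (hm : m ≤ 4) : ¬ ∀ (W : Type) (L : Fin 13 → Finset W) (H : SimpleGraph W),
    IsCover G m L H → ∃ s, H.IsNIndepSet (Fintype.card (Fin 13)) s := by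
  intro h
  obtain ⟨s, h1, h2⟩ := h (Fin 13 × Fin m) (fun v => {v} ×ˢ univ) (can m) (by
    refine ⟨fun w => ⟨w.1, by simp, fun u hu => ?_⟩, by simp, ?_, ?_, ?_⟩
    · simp only [mem_product, mem_singleton] at hu
      exact hu.1.symm
    · intro v x hx y hy hxy
      simp only [coe_product, coe_singleton, Set.mem_prod, Set.mem_singleton_iff] at hx hy
      exact Or.inl ⟨hx.1.trans hy.1.symm, fun h => hxy (Prod.ext (hx.1.trans hy.1.symm) h)⟩
    · intro u v huv x hx y hy y' hy' a1 a2
      simp only [mem_product, mem_singleton] at hx hy hy'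
      have n1 : x.1 ≠ y.1 := by rw [hx.1, hy.1]; exact huv.ne
      have n2 : x.1 ≠ y'.1 := by rw [hx.1, hy'.1]; exact huv.ne
      exact Prod.ext (hy.1.trans hy'.1.symm)
        ((a1.resolve_left fun h => n1 h.1).2.symm.trans (a2.resolve_left fun h => n2 h.1).2)
    · intro u v huv hG x hx y hy a1
      simp only [mem_product, mem_singleton] at hx hy
      rcases a1 with a1 | a1
      · exact huv (hx.1.symm.trans (a1.1.trans hy.1))
      · exact hG (hx.1 ▸ hy.1 ▸ a1.1))
  have hK : ∀ u v : Fin 13, u.val < 5 → v.val < 5 → u ≠ v → G.Adj u v := by decide +kernel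
  have := card_le_card_of_injOn (s := s) (t := (range 13).erase 4)
    (fun x => if x.1.val < 5 then x.2.val else x.1.val) (fun x _ => by
      have := x.1.2
      have := x.2.2
      simp only [coe_erase, coe_range, Set.mem_sdiff, Set.mem_Iio, Set.mem_singleton_iff]
      split_ifs <;> omega) (fun x hx y hy hxy => by
      by_contra hne
      apply h1 hx hy hne
      have := x.2.2
      have := y.2.2
      simp only at hxy
      by_cases e : x.1 = y.1
      · exact Or.inl ⟨e, fun h => hne (Prod.ext e h)⟩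
      · have e' : x.1.val ≠ y.1.val := fun h => e (Fin.ext h)
        split_ifs at hxy with a b b
        · exact Or.inr ⟨hK _ _ a b e, Fin.ext hxy⟩
        all_goals omega)
  rw [h2] at this
  simp at this

theorem result : ∃ (n : ℕ) (G : SimpleGraph (Fin n)), 0 < n ∧ 3 < chiDP G ∧
    (alphaDP G 2 : ℝ) < 2 * n / chiDP G := by
  have h : chiDP G = 5 := by
    refine le_antisymm (Nat.sInf_le five) (le_csInf ⟨5, five⟩ fun m hm => ?_)
    by_contra h
    exact low m (by omega) hm
  refine ⟨13, G, by norm_num, by omega, ?_⟩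
  have : (alphaDP G 2 : ℝ) ≤ 5 := by exact_mod_cast alpha_le
  rw [h]
  norm_num
  linarith

end Pool.Agent.Results.MP_f6aace_co.Example
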